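import Pool.Agent.K3h22.EX.Stm3
import Pool.Agent.K3h74.EX.TopUpp

/-! EX project (helper22): expansion of a polynomial at `R ζ + w`. -/

set_option autoImplicit false

namespace Pool.Agent.K3h18.EX

open MvPolynomial Filter Topology Metric Set
open Pool.Agent.K3h22.EX (top sc S_EXPB)

/-- first order Taylor expansion of a polynomial, differences -/
lemma local2 {s : ℕ} (φ : MvPolynomial (Fin s) ℂ) (ζ : Fin s → ℂ) (ρ : ℝ) (hρ : 0 ≤ ρ) :
    ∃ L : ℝ, 0 ≤ L ∧ ∀ r : ℝ, 0 ≤ r → r ≤ ρ → ∀ v v' : Fin s → ℂ, ‖v‖ ≤ r → ‖v'‖ ≤ r →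
      ‖eval (ζ + v) φ - eval (ζ + v') φ - ∑ j, eval ζ (pderiv j φ) * (v j - v' j)‖ ≤
        L * r * ‖v - v'‖ := by
  induction φ using MvPolynomial.induction_on with
  | C a =>
    refine ⟨0, le_rfl, fun r _ _ v v' _ _ => ?_⟩
    simp
  | add p q hp hq =>
    obtain ⟨L1, h1, H1⟩ := hp
    obtain ⟨L2, h2, H2⟩ := hq
    refine ⟨L1 + L2, by positivity, fun r hr hr' v v' hv hv' => ?_⟩
    have e : eval (ζ + v) (p + q) - eval (ζ + v') (p + q) -
        ∑ j, eval ζ (pderiv j (p + q)) * (v j - v' j) =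
        (eval (ζ + v) p - eval (ζ + v') p - ∑ j, eval ζ (pderiv j p) * (v j - v' j)) +
        (eval (ζ + v) q - eval (ζ + v') q - ∑ j, eval ζ (pderiv j q) * (v j - v' j)) := by
      simp only [map_add, add_mul, Finset.sum_add_distrib]
      ring
    rw [e]
    calc _ ≤ _ := norm_add_le _ _
      _ ≤ L1 * r * ‖v - v'‖ + L2 * r * ‖v - v'‖ :=
        add_le_add (H1 r hr hr' v v' hv hv') (H2 r hr hr' v v' hv hv')
      _ = _ := by ring
  | mul_X p i hp =>
    obtain ⟨L, hL, H⟩ := hp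
    set D : ℝ := ∑ j, ‖eval ζ (pderiv j p)‖ with hD
    have hD0 : 0 ≤ D := Finset.sum_nonneg fun _ _ => norm_nonneg _
    have lip : ∀ r : ℝ, 0 ≤ r → r ≤ ρ → ∀ v v' : Fin s → ℂ, ‖v‖ ≤ r → ‖v'‖ ≤ r →
        ‖eval (ζ + v) p - eval (ζ + v') p‖ ≤ (L * ρ + D) * ‖v - v'‖ := by
      intro r hr hr' v v' hv hv'
      have h1 := H r hr hr' v v' hv hv'
      have h2 : ‖∑ j, eval ζ (pderiv j p) * (v j - v' j)‖ ≤ D * ‖v - v'‖ := by
        rw [hD, Finset.sum_mul]
        refine (norm_sum_le _ _).trans (Finset.sum_le_sum fun j _ => ?_)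
        rw [norm_mul]
        gcongr
        exact norm_le_pi_norm (v - v') j
      have h3 : L * r * ‖v - v'‖ ≤ L * ρ * ‖v - v'‖ := by gcongr
      calc ‖eval (ζ + v) p - eval (ζ + v') p‖ =
            ‖(eval (ζ + v) p - eval (ζ + v') p - ∑ j, eval ζ (pderiv j p) * (v j - v' j)) +
              ∑ j, eval ζ (pderiv j p) * (v j - v' j)‖ := by rw [sub_add_cancel]
        _ ≤ _ := norm_add_le _ _
        _ ≤ L * ρ * ‖v - v'‖ + D * ‖v - v'‖ := by linarith
        _ = _ := by ring
    refine ⟨‖ζ i‖ * L + 2 * (L * ρ + D), by positivity, fun r hr hr' v v' hv hv' => ?_⟩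
    have e : eval (ζ + v) (p * X i) - eval (ζ + v') (p * X i) -
        ∑ j, eval ζ (pderiv j (p * X i)) * (v j - v' j) =
        ζ i * (eval (ζ + v) p - eval (ζ + v') p - ∑ j, eval ζ (pderiv j p) * (v j - v' j)) +
        ((eval (ζ + v) p - eval (ζ + v') p) * v i +
        (eval (ζ + v') p - eval (ζ + 0) p) * (v i - v' i)) := by
      have h1 : ∑ j, eval ζ (pderiv j (p * X i)) * (v j - v' j) =
          ζ i * ∑ j, eval ζ (pderiv j p) * (v j - v' j) + eval ζ p * (v i - v' i) := by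
        have h2 : ∀ j, eval ζ (pderiv j (p * X i)) * (v j - v' j) =
            ζ i * (eval ζ (pderiv j p) * (v j - v' j)) +
              eval ζ p * (if j = i then (v j - v' j) else 0) := by
          intro j
          rw [pderiv_mul, map_add, map_mul, map_mul, eval_X, pderiv_X]
          by_cases hj : j = i
          · subst hj
            simp
            ring
          · have : Pi.single (M := fun _ => MvPolynomial (Fin s) ℂ) j 1 i = 0 := by
              rw [Pi.single_apply, if_neg (Ne.symm hj)]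
            simp [hj]
            ring
        rw [Finset.sum_congr rfl fun j _ => h2 j, Finset.sum_add_distrib, ← Finset.mul_sum,
          ← Finset.mul_sum]
        simp
      rw [h1]
      simp only [map_mul, eval_X, Pi.add_apply, add_zero]
      ring
    rw [e]
    have hvi : ‖v i‖ ≤ r := (norm_le_pi_norm v i).trans hv
    have hvi2 : ‖v i - v' i‖ ≤ ‖v - v'‖ := norm_le_pi_norm (v - v') i
    have k1 := H r hr hr' v v' hv hv'
    have k2 := lip r hr hr' v v' hv hv'
    have k3 := lip r hr hr' v' 0 hv' (by simpa using hr)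
    rw [sub_zero] at k3
    have hc : 0 ≤ L * ρ + D := by positivity
    have m1 : ‖ζ i * (eval (ζ + v) p - eval (ζ + v') p -
        ∑ j, eval ζ (pderiv j p) * (v j - v' j))‖ ≤ ‖ζ i‖ * (L * r * ‖v - v'‖) := by
      rw [norm_mul]
      gcongr
    have m2 : ‖(eval (ζ + v) p - eval (ζ + v') p) * v i‖ ≤ ((L * ρ + D) * ‖v - v'‖) * r := by
      rw [norm_mul]
      gcongr
    have m3 : ‖(eval (ζ + v') p - eval (ζ + 0) p) * (v i - v' i)‖ ≤
        ((L * ρ + D) * r) * ‖v - v'‖ := by
      rw [norm_mul]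
      have : ‖eval (ζ + v') p - eval (ζ + 0) p‖ ≤ (L * ρ + D) * r :=
        k3.trans (mul_le_mul_of_nonneg_left hv' hc)
      gcongr
    calc _ ≤ _ := (norm_add_le _ _).trans (add_le_add le_rfl (norm_add_le _ _))
      _ ≤ ‖ζ i‖ * (L * r * ‖v - v'‖) + (((L * ρ + D) * ‖v - v'‖) * r +
          ((L * ρ + D) * r) * ‖v - v'‖) := by
        gcongr
      _ = _ := by ring

/-- the expansion for a homogeneous component -/
lemma comp2 {s : ℕ} (q : MvPolynomial (Fin s) ℂ) (k : ℕ) (ζ : Fin s → ℂ) (ρ : ℝ) (hρ : 0 ≤ ρ) :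
    ∃ C : ℝ, 0 ≤ C ∧ ∀ R : ℝ, 1 ≤ R → ∀ w w' : Fin s → ℂ, ‖w‖ ≤ ρ → ‖w'‖ ≤ ρ →
      ‖eval (sc R ζ + w) (homogeneousComponent k q) - eval (sc R ζ + w') (homogeneousComponent k q)
        - (R : ℂ) ^ (k - 1) *
          ∑ j, eval ζ (pderiv j (homogeneousComponent k q)) * (w j - w' j)‖ ≤
        C * R ^ k / R ^ 2 * ‖w - w'‖ := by
  rcases Nat.eq_zero_or_pos k with hk | hk
  · subst hk
    refine ⟨0, le_rfl, fun R _ w w' _ _ => ?_⟩
    rw [homogeneousComponent_zero]
    simp
  obtain ⟨L, hL, H⟩ := local2 (homogeneousComponent k q) ζ ρ hρ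
  refine ⟨L * ρ, by positivity, fun R hR w w' hw hw' => ?_⟩
  have hR0 : 0 < R := by linarith
  have hRc : (R : ℂ) ≠ 0 := by exact_mod_cast hR0.ne'
  have key : ∀ x : Fin s → ℂ, eval (sc R ζ + x) (homogeneousComponent k q) =
      (R : ℂ) ^ k * eval (ζ + ((R : ℂ)⁻¹ • x)) (homogeneousComponent k q) := by
    intro x
    rw [← Pool.Agent.K3h74.EX.eval_sc_of_homogeneous (homogeneousComponent_isHomogeneous k q)]
    congr 1
    have : sc R ζ + x = sc R (ζ + ((R : ℂ)⁻¹ • x)) := by
      funext i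
      simp only [sc, Pi.add_apply, Pi.smul_apply, smul_eq_mul]
      field_simp
    rw [this]
  have nrm : ∀ x : Fin s → ℂ, ‖(R : ℂ)⁻¹ • x‖ = ‖x‖ / R := by
    intro x
    rw [norm_smul, norm_inv, Complex.norm_real, Real.norm_of_nonneg hR0.le]
    field_simp
  have h1 := H (ρ / R) (by positivity) (div_le_self hρ hR) ((R : ℂ)⁻¹ • w) ((R : ℂ)⁻¹ • w')
    (by rw [nrm]; gcongr) (by rw [nrm]; gcongr)
  rw [← smul_sub, nrm] at h1
  have e : eval (sc R ζ + w) (homogeneousComponent k q) -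
      eval (sc R ζ + w') (homogeneousComponent k q) - (R : ℂ) ^ (k - 1) *
          ∑ j, eval ζ (pderiv j (homogeneousComponent k q)) * (w j - w' j) =
      (R : ℂ) ^ k * (eval (ζ + (R : ℂ)⁻¹ • w) (homogeneousComponent k q) -
        eval (ζ + (R : ℂ)⁻¹ • w') (homogeneousComponent k q) -
        ∑ j, eval ζ (pderiv j (homogeneousComponent k q)) *
          (((R : ℂ)⁻¹ • w) j - ((R : ℂ)⁻¹ • w') j)) := by
    rw [key, key, mul_sub, mul_sub]
    congr 1
    obtain ⟨k', rfl⟩ : ∃ k', k = k' + 1 := ⟨k - 1, by omega⟩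
    rw [Nat.add_sub_cancel, pow_succ, mul_assoc, Finset.mul_sum _ _ (R : ℂ)]
    congr 1
    refine Finset.sum_congr rfl fun j _ => ?_
    simp only [Pi.smul_apply, smul_eq_mul]
    field_simp
  rw [e, norm_mul, norm_pow, Complex.norm_real, Real.norm_of_nonneg hR0.le]
  calc R ^ k * _ ≤ R ^ k * (L * (ρ / R) * (‖w - w'‖ / R)) := by gcongr
    _ = _ := by
      field_simp

lemma pow_le_div {R : ℝ} (hR : 1 ≤ R) {k d m : ℕ} (h : k + m ≤ d) : R ^ k ≤ R ^ d / R ^ m := by
  have hR0 : 0 < R := by linarith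
  rw [le_div_iff₀ (by positivity), ← pow_add]
  exact pow_le_pow_right₀ hR h

theorem t_EXPB : S_EXPB := by
  intro s q ζ ρ hd
  obtain ⟨e, he⟩ : ∃ e, q.totalDegree = e + 1 := ⟨q.totalDegree - 1, by omega⟩
  set ρ' : ℝ := max ρ 0 with hρ'
  have hρ0 : 0 ≤ ρ' := le_max_right _ _
  choose C hC0 hC using fun k : ℕ => comp2 q k ζ ρ' hρ0
  let D : ℕ → ℝ := fun k => ∑ j, ‖eval ζ (pderiv j (homogeneousComponent k q))‖
  have hD0 : ∀ k, 0 ≤ D k := fun k => Finset.sum_nonneg fun _ _ => norm_nonneg _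
  let E : ℕ → ℝ := fun k => ‖eval ζ (homogeneousComponent k q)‖
  have hE0 : ∀ k, 0 ≤ E k := fun k => norm_nonneg _
  -- decomposition
  have dec : ∀ x : Fin s → ℂ, eval x q = ∑ k ∈ Finset.range (e + 1),
      eval x (homogeneousComponent k q) + eval x (top q) := by
    intro x
    conv_lhs => rw [← sum_homogeneousComponent q]
    rw [map_sum, he, Finset.sum_range_succ]
    unfold top
    rw [he]
  have htop : top q = homogeneousComponent (e + 1) q := by
    unfold top
    rw [he]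
  refine ⟨∑ k ∈ Finset.range e, E k + (∑ k ∈ Finset.range (e + 1), (C k + D k) + C (e + 1)), ?_,
    fun R hR => ⟨?_, ?_⟩⟩
  · have a1 : 0 ≤ ∑ k ∈ Finset.range e, E k := Finset.sum_nonneg fun k _ => hE0 k
    have a2 : 0 ≤ ∑ k ∈ Finset.range (e + 1), (C k + D k) :=
      Finset.sum_nonneg fun k _ => add_nonneg (hC0 k) (hD0 k)
    have a3 := hC0 (e + 1)
    linarith
  · have hR0 : 0 < R := by linarith
    rw [dec, htop, he, Nat.add_sub_cancel, Finset.sum_range_succ,
      Pool.Agent.K3h74.EX.eval_sc_of_homogeneous (homogeneousComponent_isHomogeneous (e + 1) q),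
      Pool.Agent.K3h74.EX.eval_sc_of_homogeneous (homogeneousComponent_isHomogeneous e q)]
    have e1 : ∀ a b c : ℂ, a + b + c - c - b = a := fun a b c => by ring
    rw [e1]
    have a2 : 0 ≤ ∑ k ∈ Finset.range (e + 1), (C k + D k) :=
      Finset.sum_nonneg fun k _ => add_nonneg (hC0 k) (hD0 k)
    have a3 := hC0 (e + 1)
    calc ‖∑ k ∈ Finset.range e, eval (sc R ζ) (homogeneousComponent k q)‖
        ≤ ∑ k ∈ Finset.range e, ‖eval (sc R ζ) (homogeneousComponent k q)‖ := norm_sum_le _ _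
      _ ≤ ∑ k ∈ Finset.range e, E k * (R ^ (e + 1) / R ^ 2) := by
        refine Finset.sum_le_sum fun k hk => ?_
        have hk' : k + 2 ≤ e + 1 := by
          have := Finset.mem_range.1 hk
          omega
        rw [Pool.Agent.K3h74.EX.eval_sc_of_homogeneous (homogeneousComponent_isHomogeneous k q),
          norm_mul, norm_pow, Complex.norm_real, Real.norm_of_nonneg hR0.le, mul_comm]
        exact mul_le_mul_of_nonneg_left (pow_le_div hR hk') (hE0 k)
      _ = (∑ k ∈ Finset.range e, E k) * (R ^ (e + 1) / R ^ 2) := by rw [Finset.sum_mul]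
      _ ≤ (∑ k ∈ Finset.range e, E k + (∑ k ∈ Finset.range (e + 1), (C k + D k) + C (e + 1))) *
          (R ^ (e + 1) / R ^ 2) := by
        have : 0 ≤ R ^ (e + 1) / R ^ 2 := by positivity
        apply mul_le_mul_of_nonneg_right _ this
        linarith
      _ = _ := by ring
  · intro w w' hw hw'
    have hR0 : 0 < R := by linarith
    have hw1 : ‖w‖ ≤ ρ' := hw.trans (le_max_left _ _)
    have hw2 : ‖w'‖ ≤ ρ' := hw'.trans (le_max_left _ _)
    rw [dec, dec (sc R ζ + w'), he, Nat.add_sub_cancel]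
    have e1 : ∀ a a' b b' c : ℂ, a + b - (a' + b') - c = (a - a') + (b - b' - c) :=
      fun a a' b b' c => by ring
    rw [e1, ← Finset.sum_sub_distrib]
    have t1 := hC (e + 1) R hR w w' hw1 hw2
    rw [Nat.add_sub_cancel] at t1
    have t2 : ‖∑ k ∈ Finset.range (e + 1), (eval (sc R ζ + w) (homogeneousComponent k q) -
        eval (sc R ζ + w') (homogeneousComponent k q))‖ ≤
        (∑ k ∈ Finset.range (e + 1), (C k + D k)) * (R ^ (e + 1) / R ^ 2 * ‖w - w'‖) := by
      rw [Finset.sum_mul]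
      refine (norm_sum_le _ _).trans (Finset.sum_le_sum fun k hk => ?_)
      have hk' : k ≤ e := by
        have := Finset.mem_range.1 hk
        omega
      have u1 := hC k R hR w w' hw1 hw2
      have u2 : ‖(R : ℂ) ^ (k - 1) *
          ∑ j, eval ζ (pderiv j (homogeneousComponent k q)) * (w j - w' j)‖ ≤
          D k * (R ^ (e + 1) / R ^ 2 * ‖w - w'‖) := by
        rcases Nat.eq_zero_or_pos k with hk0 | hk0
        · subst hk0
          rw [homogeneousComponent_zero]
          simp only [pderiv_C, map_zero, zero_mul, Finset.sum_const_zero, mul_zero, norm_zero]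
          have := hD0 0
          positivity
        · rw [norm_mul, norm_pow, Complex.norm_real, Real.norm_of_nonneg hR0.le]
          have v1 : ‖∑ j, eval ζ (pderiv j (homogeneousComponent k q)) * (w j - w' j)‖ ≤
              D k * ‖w - w'‖ := by
            simp only [D]
            rw [Finset.sum_mul]
            refine (norm_sum_le _ _).trans (Finset.sum_le_sum fun j _ => ?_)
            rw [norm_mul]
            gcongr
            exact norm_le_pi_norm (w - w') j
          have v2 : R ^ (k - 1) ≤ R ^ (e + 1) / R ^ 2 := pow_le_div hR (by omega)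
          calc _ ≤ R ^ (e + 1) / R ^ 2 * (D k * ‖w - w'‖) := by gcongr
            _ = _ := by ring
      have u3 : C k * R ^ k / R ^ 2 * ‖w - w'‖ ≤ C k * (R ^ (e + 1) / R ^ 2 * ‖w - w'‖) := by
        have v3 : R ^ k ≤ R ^ (e + 1) := pow_le_pow_right₀ hR (by omega)
        calc C k * R ^ k / R ^ 2 * ‖w - w'‖ ≤ C k * R ^ (e + 1) / R ^ 2 * ‖w - w'‖ := by
              have := hC0 k
              gcongr
          _ = _ := by ring
      have u4 : eval (sc R ζ + w) (homogeneousComponent k q) -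
          eval (sc R ζ + w') (homogeneousComponent k q) =
          (eval (sc R ζ + w) (homogeneousComponent k q) -
          eval (sc R ζ + w') (homogeneousComponent k q) - (R : ℂ) ^ (k - 1) *
          ∑ j, eval ζ (pderiv j (homogeneousComponent k q)) * (w j - w' j)) + (R : ℂ) ^ (k - 1) *
          ∑ j, eval ζ (pderiv j (homogeneousComponent k q)) * (w j - w' j) := by ring
      rw [u4]
      calc _ ≤ _ := norm_add_le _ _
        _ ≤ C k * (R ^ (e + 1) / R ^ 2 * ‖w - w'‖) + D k * (R ^ (e + 1) / R ^ 2 * ‖w - w'‖) :=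
          add_le_add (u1.trans u3) u2
        _ = _ := by ring
    have a1 : 0 ≤ ∑ k ∈ Finset.range e, E k := Finset.sum_nonneg fun k _ => hE0 k
    rw [htop]
    calc _ ≤ _ := norm_add_le _ _
      _ ≤ (∑ k ∈ Finset.range (e + 1), (C k + D k)) * (R ^ (e + 1) / R ^ 2 * ‖w - w'‖) +
          C (e + 1) * R ^ (e + 1) / R ^ 2 * ‖w - w'‖ := add_le_add t2 t1
      _ = (∑ k ∈ Finset.range (e + 1), (C k + D k) + C (e + 1)) *
          (R ^ (e + 1) / R ^ 2 * ‖w - w'‖) := by ring
      _ ≤ (∑ k ∈ Finset.range e, E k + (∑ k ∈ Finset.range (e + 1), (C k + D k) + C (e + 1))) *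
          (R ^ (e + 1) / R ^ 2 * ‖w - w'‖) := by
        have : 0 ≤ R ^ (e + 1) / R ^ 2 * ‖w - w'‖ := by positivity
        apply mul_le_mul_of_nonneg_right _ this
        linarith
      _ = _ := by ring

end Pool.Agent.K3h18.EX
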