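import Pool.Agent.K3h22.EX.Stm3
import Pool.Agent.K3h67.EX.Solve

/-! EX project (helper22): solution of the system in balls of fixed radius (adapted from
`Pool.Agent.K3h67.EX.t_SOLVE`). -/

set_option autoImplicit false

namespace Pool.Agent.K3h18.EX

open MvPolynomial Filter Topology Metric Set Pool.Agent.K3h22.EX Pool.Agent.K3h67.EX

theorem t_SOLVEB : S_EXPB → S_BC → S_SOLVEB := by
  intro hEXP hBC s Φ ζ hdeg hre hdet
  classical
  set J := jac (fun a => top (Φ a)) ζ with hJ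
  set bb : Fin s → ℂ := fun a =>
    (((eval ζ (homogeneousComponent ((Φ a).totalDegree - 1) (Φ a))).re : ℝ) : ℂ) with hbb
  set M : Matrix (Fin s) (Fin s) ℂ := Complex.I • J⁻¹ with hM
  set u : Fin s → ℂ := - J⁻¹.mulVec bb with hu
  have hJi : J⁻¹.det ≠ 0 := by
    rw [Matrix.det_nonsing_inv]
    intro h
    apply hdet
    have h2 := Ring.mul_inverse_cancel J.det (Ne.isUnit hdet)
    rw [h, mul_zero] at h2
    exact absurd h2 zero_ne_one
  refine ⟨M, u, ?_, ?_⟩
  · rw [hM, Matrix.det_smul]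
    exact mul_ne_zero (pow_ne_zero _ Complex.I_ne_zero) hJi
  intro c₀ C hc₀
  -- the linear maps
  set A : (Fin s → ℂ) →L[ℂ] (Fin s → ℂ) :=
    ContinuousLinearMap.pi fun a => dlin (top (Φ a)) ζ with hAdef
  have hA : ∀ v, A v = J.mulVec v := by
    intro v
    funext a
    change dlin (top (Φ a)) ζ v = _
    rw [dlin_apply]
    simp [hJ, jac, Matrix.mulVec, dotProduct]
  have hAa : ∀ v a, A v a = ∑ j, eval ζ (pderiv j (top (Φ a))) * v j := by
    intro v a
    change dlin (top (Φ a)) ζ v = _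
    rw [dlin_apply]
  set B : (Fin s → ℂ) →L[ℂ] (Fin s → ℂ) := (Matrix.toLin' J⁻¹).toContinuousLinearMap with hBdef
  have hB : ∀ v, B v = J⁻¹.mulVec v := by
    intro v; simp [hBdef]
  have hAB : ∀ v, A (B v) = v := by
    intro v
    rw [hA, hB, Matrix.mulVec_mulVec, Matrix.mul_nonsing_inv _ (Ne.isUnit hdet), Matrix.one_mulVec]
  set N : NNReal := ‖B‖₊ + 1 with hN
  have hNpos : 0 < N := by positivity
  let rinv : A.NonlinearRightInverse :=
    { toFun := B
      nnnorm := N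
      bound' := by
        intro y
        refine (B.le_opNorm y).trans ?_
        have : ‖B‖ ≤ (N : ℝ) := by rw [hN]; push_cast; linarith
        exact mul_le_mul_of_nonneg_right this (norm_nonneg _)
      right_inv' := hAB }
  set Kn : NNReal := (8 * N)⁻¹ with hKn
  have hKnpos : 0 < Kn := by positivity
  set K : ℝ := (Kn : ℝ) with hK
  have hKpos : 0 < K := by exact_mod_cast hKnpos
  have hKN : (N : ℝ)⁻¹ = 8 * K := by
    rw [hK, hKn]; push_cast
    have : (0:ℝ) < N := by exact_mod_cast hNpos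
    field_simp
  -- norm of `mv M τ`
  have hmv : ∀ τ : Fin s → ℝ, mv M τ = B (fun i => Complex.I * (τ i : ℂ)) := by
    intro τ
    rw [hB]
    unfold mv
    rw [hM, Matrix.smul_mulVec, ← Matrix.mulVec_smul]
    rfl
  have hmvn : ∀ τ : Fin s → ℝ, ‖τ‖ ≤ 1 → ‖mv M τ‖ ≤ ‖B‖ := by
    intro τ hτ
    rw [hmv]
    refine (B.le_opNorm _).trans ?_
    have : ‖fun i => Complex.I * (τ i : ℂ)‖ ≤ 1 := by
      rw [pi_norm_le_iff_of_nonneg zero_le_one]
      intro i
      rw [norm_mul, Complex.norm_I, one_mul, Complex.norm_real]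
      exact (norm_le_pi_norm τ i).trans hτ
    calc ‖B‖ * _ ≤ ‖B‖ * 1 := by gcongr
      _ = _ := mul_one _
  set ρ : ℝ := ‖u‖ + ‖B‖ + c₀ with hρ
  have hρ0 : 0 ≤ ρ := by positivity
  choose Ce hCe0 hCe using fun a => hEXP s (Φ a) ζ ρ (by have := hdeg a; omega)
  set C1 : ℝ := ∑ a, Ce a with hC1def
  have hC1 : ∀ a, Ce a ≤ C1 := fun a =>
    Finset.single_le_sum (f := Ce) (fun a _ => hCe0 a) (Finset.mem_univ a)
  have hC1nn : 0 ≤ C1 := Finset.sum_nonneg fun a _ => hCe0 a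
  set C' : ℝ := max C 1 with hC'
  have hC'1 : 1 ≤ C' := le_max_right _ _
  have hCC' : C ≤ C' := le_max_left _ _
  have hpi := Real.pi_pos
  refine ⟨1 + (C1 + 100 * C' / c₀) / K + (C1 * (1 + ρ) + C' + Real.pi) / (K * c₀), ?_, ?_⟩
  · have : 0 ≤ (C1 + 100 * C' / c₀) / K := by positivity
    have : 0 ≤ (C1 * (1 + ρ) + C' + Real.pi) / (K * c₀) := by positivity
    linarith
  intro R hR τ hτ L hL hLre
  have p1 : 0 ≤ (C1 + 100 * C' / c₀) / K := by positivity
  have p2 : 0 ≤ (C1 * (1 + ρ) + C' + Real.pi) / (K * c₀) := by positivity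
  have hR1 : 1 ≤ R := by linarith
  have hR0 : 0 < R := by linarith
  have q1 : (C1 + 100 * C' / c₀) / R ≤ K := by
    have : (C1 + 100 * C' / c₀) / K ≤ R := by linarith
    rw [div_le_iff₀ hKpos] at this
    rw [div_le_iff₀ hR0]
    linarith
  have q2 : (C1 * (1 + ρ) + C' + Real.pi) / R ≤ K * c₀ := by
    have : (C1 * (1 + ρ) + C' + Real.pi) / (K * c₀) ≤ R := by linarith
    rw [div_le_iff₀ (by positivity)] at this
    rw [div_le_iff₀ hR0]
    linarith
  set x : Fin s → ℂ := u + mv M τ with hx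
  set z1 : Fin s → ℂ := sc R ζ + u + mv M τ with hz1
  have hz1x : z1 = sc R ζ + x := by rw [hz1, hx, add_assoc]
  have hxn : ‖x‖ ≤ ‖u‖ + ‖B‖ := (norm_add_le _ _).trans (add_le_add le_rfl (hmvn τ hτ))
  have hxρ : ‖x‖ ≤ ρ := by linarith
  have hAx : ∀ a, A x a = - bb a + Complex.I * (τ a : ℂ) := by
    intro a
    rw [hx, map_add, hmv, hAB, hu, ← hB, map_neg, hAB]
    rfl
  -- powers of `R`
  have hRd : ∀ a, 0 < R ^ ((Φ a).totalDegree - 1) := fun a => by positivity
  have hRn : ∀ a, ‖((R : ℂ) ^ ((Φ a).totalDegree - 1))⁻¹‖ =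
      (R ^ ((Φ a).totalDegree - 1))⁻¹ := by
    intro a
    rw [norm_inv, norm_pow, Complex.norm_real, Real.norm_of_nonneg hR0.le]
  have hRe : ∀ a, R ^ (Φ a).totalDegree / R ^ 2 = R ^ ((Φ a).totalDegree - 1) / R := by
    intro a
    have : (Φ a).totalDegree = ((Φ a).totalDegree - 1) + 1 := by have := hdeg a; omega
    conv_lhs => rw [this, pow_succ]
    field_simp
  have hRR : ∀ a, R * R ≤ R ^ ((Φ a).totalDegree - 1) := by
    intro a
    calc R * R = R ^ 2 := by ring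
      _ ≤ _ := pow_le_pow_right₀ hR1 (by have := hdeg a; omega)
  have hRi : ∀ a, (R ^ ((Φ a).totalDegree - 1))⁻¹ * R ≤ 1 / R := by
    intro a
    rw [inv_mul_le_iff₀ (hRd a), mul_one_div, le_div_iff₀ hR0]
    exact hRR a
  -- Lipschitz bound for `L`
  have hLlip : ∀ a, ∀ v ∈ ball z1 (c₀ / 4), ∀ w ∈ ball z1 (c₀ / 4),
      ‖L a v - L a w‖ ≤ 100 * (C' * R) / c₀ * ‖v - w‖ := by
    intro a
    refine hBC s z1 c₀ _ (L a) hc₀ (by positivity) (hL a) fun v hv => (hLre a v hv).trans ?_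
    gcongr
  set G : (Fin s → ℂ) → (Fin s → ℂ) := fun v a =>
    ((R : ℂ) ^ ((Φ a).totalDegree - 1))⁻¹ * (eval v (Φ a) - L a v) with hG
  have hsmall : ∀ v ∈ closedBall z1 (c₀ / 5), v ∈ ball z1 (c₀ / 4) ∧ ‖v - sc R ζ‖ ≤ ρ := by
    intro v hv
    have hv1 := mem_closedBall.1 hv
    refine ⟨mem_ball.2 (by linarith), ?_⟩
    have e : v - sc R ζ = (v - z1) + x := by rw [hz1x]; ring
    rw [e]
    rw [dist_eq_norm] at hv1
    calc _ ≤ _ := norm_add_le _ _
      _ ≤ c₀ + (‖u‖ + ‖B‖) := by linarith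
      _ = ρ := by rw [hρ]; ring
  have hGapp : ApproximatesLinearOn G A (closedBall z1 (c₀ / 5)) Kn := by
    intro v hv w hw
    obtain ⟨hv', hvρ⟩ := hsmall v hv
    obtain ⟨hw', hwρ⟩ := hsmall w hw
    rw [pi_norm_le_iff_of_nonneg (by positivity)]
    intro a
    have h1 := (hCe a R hR1).2 (v - sc R ζ) (w - sc R ζ) hvρ hwρ
    have e1 : ∀ y : Fin s → ℂ, sc R ζ + (y - sc R ζ) = y := fun y => by ring
    rw [e1, e1] at h1
    have e2 : ∑ j, eval ζ (pderiv j (top (Φ a))) * ((v - sc R ζ) j - (w - sc R ζ) j) =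
        A (v - w) a := by
      rw [hAa]
      refine Finset.sum_congr rfl fun j _ => ?_
      simp only [Pi.sub_apply]
      ring
    rw [e2, sub_sub_sub_cancel_right] at h1
    have h3 := hLlip a v hv' w hw'
    have hRc : ((R : ℂ) ^ ((Φ a).totalDegree - 1)) ≠ 0 :=
      pow_ne_zero _ (by exact_mod_cast hR0.ne')
    have e : (G v - G w - A (v - w)) a = ((R : ℂ) ^ ((Φ a).totalDegree - 1))⁻¹ *
        ((eval v (Φ a) - eval w (Φ a) - (R : ℂ) ^ ((Φ a).totalDegree - 1) * A (v - w) a) -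
          (L a v - L a w)) := by
      simp only [hG, Pi.sub_apply]
      field_simp
      ring
    rw [e, norm_mul, hRn]
    calc _ ≤ (R ^ ((Φ a).totalDegree - 1))⁻¹ * (Ce a * R ^ (Φ a).totalDegree / R ^ 2 * ‖v - w‖ +
          100 * (C' * R) / c₀ * ‖v - w‖) := by
          have := (norm_sub_le (eval v (Φ a) - eval w (Φ a) -
            (R : ℂ) ^ ((Φ a).totalDegree - 1) * A (v - w) a) (L a v - L a w)).trans
            (add_le_add h1 h3)
          gcongr
      _ = (Ce a / R + 100 * C' / c₀ * ((R ^ ((Φ a).totalDegree - 1))⁻¹ * R)) * ‖v - w‖ := by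
          rw [mul_div_assoc, hRe]
          have := (hRd a).ne'
          field_simp
      _ ≤ (C1 / R + 100 * C' / c₀ * (1 / R)) * ‖v - w‖ := by
          have := hC1 a
          have := hRi a
          gcongr
      _ = (C1 + 100 * C' / c₀) / R * ‖v - w‖ := by ring
      _ ≤ K * ‖v - w‖ := by gcongr
  have hsurj := hGapp.surjOn_closedBall_of_nonlinearRightInverse rinv
    (by positivity : 0 ≤ c₀ / 5) (subset_refl _)
  have hrad : K * c₀ ≤ (((rinv.nnnorm : ℝ))⁻¹ - (Kn : ℝ)) * (c₀ / 5) := by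
    have : (rinv.nnnorm : ℝ) = (N : ℝ) := rfl
    rw [this, hKN]
    nlinarith
  have hz1mem : z1 ∈ ball z1 c₀ := mem_ball_self hc₀
  choose n hn using fun a => (⟨round ((eval z1 (Φ a) - L a z1).im / (2 * Real.pi)),
    abs_sub_round _⟩ : ∃ n : ℤ, |(eval z1 (Φ a) - L a z1).im / (2 * Real.pi) - n| ≤ 1 / 2)
  set σ : Fin s → ℂ := fun a => ((R : ℂ) ^ ((Φ a).totalDegree - 1))⁻¹ *
    (2 * Real.pi * Complex.I * (n a : ℂ)) with hσ
  have hΦre : ∀ a, |(eval z1 (Φ a)).re| ≤ C1 * (1 + ρ) * (R ^ ((Φ a).totalDegree - 1) / R) := by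
    intro a
    obtain ⟨h1, h2⟩ := hCe a R hR1
    have h3 := h2 x 0 hxρ (by simpa using hρ0)
    rw [← hz1x, add_zero] at h3
    have e2 : ∑ j, eval ζ (pderiv j (top (Φ a))) * (x j - (0 : Fin s → ℂ) j) = A x a := by
      rw [hAa]
      simp
    rw [e2, hAx, sub_zero] at h3
    have e3 : (eval z1 (Φ a)).re = ((eval z1 (Φ a) - eval (sc R ζ) (Φ a) -
        (R : ℂ) ^ ((Φ a).totalDegree - 1) * (- bb a + Complex.I * (τ a : ℂ))) +
        (eval (sc R ζ) (Φ a) - (R : ℂ) ^ (Φ a).totalDegree * eval ζ (top (Φ a)) -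
          (R : ℂ) ^ ((Φ a).totalDegree - 1) *
          eval ζ (homogeneousComponent ((Φ a).totalDegree - 1) (Φ a)))).re := by
      have h0 : (eval ζ (top (Φ a))).re = 0 := hre a
      simp only [hbb, ← Complex.ofReal_pow, Complex.add_re, Complex.sub_re,
        h0, Complex.neg_re, Complex.ofReal_re, Complex.mul_re, Complex.I_re, Complex.I_im,
        Complex.ofReal_im]
      ring
    rw [e3]
    refine (Complex.abs_re_le_norm _).trans ((norm_add_le _ _).trans ?_)
    calc _ ≤ Ce a * R ^ (Φ a).totalDegree / R ^ 2 * ‖x‖ + Ce a * R ^ (Φ a).totalDegree / R ^ 2 :=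
          add_le_add h3 h1
      _ = Ce a * (1 + ‖x‖) * (R ^ ((Φ a).totalDegree - 1) / R) := by
          rw [mul_div_assoc, hRe]
          ring
      _ ≤ _ := by
          have := hC1 a
          gcongr
  have hσmem : σ ∈ closedBall (G z1) ((((rinv.nnnorm : ℝ))⁻¹ - (Kn : ℝ)) * (c₀ / 5)) := by
    rw [mem_closedBall, dist_eq_norm]
    refine le_trans ?_ hrad
    rw [pi_norm_le_iff_of_nonneg (by positivity)]
    intro a
    have e : (σ - G z1) a = ((R : ℂ) ^ ((Φ a).totalDegree - 1))⁻¹ *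
        (2 * Real.pi * Complex.I * (n a : ℂ) - (eval z1 (Φ a) - L a z1)) := by
      simp only [hG, hσ, Pi.sub_apply]
      ring
    rw [e, norm_mul, hRn]
    have hr : (2 * Real.pi * Complex.I * (n a : ℂ) - (eval z1 (Φ a) - L a z1)).re =
        (L a z1).re - (eval z1 (Φ a)).re := by
      simp
    have hi : (2 * Real.pi * Complex.I * (n a : ℂ) - (eval z1 (Φ a) - L a z1)).im =
        2 * Real.pi * n a - (eval z1 (Φ a) - L a z1).im := by
      simp
    have hi' : |2 * Real.pi * n a - (eval z1 (Φ a) - L a z1).im| ≤ Real.pi := by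
      have h5 := hn a
      have h6 : 2 * Real.pi * n a - (eval z1 (Φ a) - L a z1).im =
          - (2 * Real.pi) * ((eval z1 (Φ a) - L a z1).im / (2 * Real.pi) - n a) := by
        field_simp
        ring
      rw [h6, abs_mul, abs_neg, abs_of_pos (by positivity : 0 < 2 * Real.pi)]
      nlinarith
    have hr' : |(L a z1).re - (eval z1 (Φ a)).re| ≤
        C' * R + C1 * (1 + ρ) * (R ^ ((Φ a).totalDegree - 1) / R) := by
      refine (abs_sub _ _).trans (add_le_add ((hLre a z1 hz1mem).trans ?_) (hΦre a))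
      gcongr
    have hnorm := (Complex.norm_le_abs_re_add_abs_im
      (2 * Real.pi * Complex.I * (n a : ℂ) - (eval z1 (Φ a) - L a z1)))
    rw [hr, hi] at hnorm
    calc _ ≤ (R ^ ((Φ a).totalDegree - 1))⁻¹ * ((C' * R + C1 * (1 + ρ) *
          (R ^ ((Φ a).totalDegree - 1) / R)) + Real.pi) := by
          have := hnorm.trans (add_le_add hr' hi')
          gcongr
      _ ≤ (R ^ ((Φ a).totalDegree - 1))⁻¹ * ((C' * R + C1 * (1 + ρ) *
          (R ^ ((Φ a).totalDegree - 1) / R)) + Real.pi * R) := by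
          have : Real.pi ≤ Real.pi * R := le_mul_of_one_le_right hpi.le hR1
          gcongr
      _ = (C' + Real.pi) * ((R ^ ((Φ a).totalDegree - 1))⁻¹ * R) + C1 * (1 + ρ) * (1 / R) := by
          have := (hRd a).ne'
          field_simp
          ring
      _ ≤ (C' + Real.pi) * (1 / R) + C1 * (1 + ρ) * (1 / R) := by
          have := hRi a
          gcongr
      _ = (C1 * (1 + ρ) + C' + Real.pi) / R := by ring
      _ ≤ K * c₀ := q2
  obtain ⟨v, hv, hGv⟩ := hsurj hσmem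
  have hv4 := (hsmall v hv).1
  refine ⟨v, ball_subset_ball (by linarith) hv4, fun a => ⟨n a, ?_⟩⟩
  have hRc : ((R : ℂ) ^ ((Φ a).totalDegree - 1))⁻¹ ≠ 0 :=
    inv_ne_zero (pow_ne_zero _ (by exact_mod_cast hR0.ne'))
  have h7 := congrFun hGv a
  simp only [hG, hσ] at h7
  exact mul_left_cancel₀ hRc h7

end Pool.Agent.K3h18.EX
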